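import Mathlib

set_option autoImplicit false
set_option maxHeartbeats 400000

open Set Filter Topology
open scoped ENNReal NNReal

namespace Pool.Agent.Results.MP_6d1e65_an.Strongest

/-- distance distribution functions -/
structure DF where
  f : ℝ≥0∞ → ℝ
  mono : Monotone f
  zero : f 0 = 0
  top : f ⊤ = 1
  lc : ∀ x, x ≠ 0 → x ≠ ⊤ → ContinuousWithinAt f (Iio x) x

/-- pointwise order -/
def LE (F G : DF) : Prop := ∀ x, F.f x ≤ G.f x

/-- `F` is the unit step at zero -/
def IsE0 (F : DF) : Prop := ∀ x, x ≠ 0 → F.f x = 1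

/-- `F` is the unit step at infinity -/
def IsEtop (F : DF) : Prop := ∀ x, x ≠ ⊤ → F.f x = 0

/-- triangle functions -/
def IsTri (τ : DF → DF → DF) : Prop :=
  (∀ F G, τ F G = τ G F) ∧ (∀ F G H, τ (τ F G) H = τ F (τ G H)) ∧
    (∀ F F' G, LE F F' → LE (τ F G) (τ F' G)) ∧ ∀ E F, IsE0 E → τ E F = F

/-- the value of the sup-min triangle function -/
noncomputable def tauM (F G : DF) (x : ℝ≥0∞) : ℝ :=
  sSup {t | ∃ u v, u + v = x ∧ t = min (F.f u) (G.f v)}

/-- universality for simple spaces over metric spaces with finite distances -/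
def Universal (τ : DF → DF → DF) : Prop :=
  ∀ (S : Type) [MetricSpace S] (G : DF), ¬IsE0 G → ¬IsEtop G → ∀ P : S → S → DF,
    (∀ p q x, (P p q).f x = G.f (x / edist p q)) → ∀ p q r, LE (τ (P p q) (P q r)) (P p r)

theorem DF.le1 (F : DF) (x : ℝ≥0∞) : F.f x ≤ 1 := F.top ▸ F.mono le_top
theorem DF.ge0 (F : DF) (x : ℝ≥0∞) : 0 ≤ F.f x := F.zero ▸ F.mono (zero_le)

noncomputable def sc (G : DF) (a : ℝ≥0∞) (ha : a ≠ ⊤) : DF where
  f x := G.f (x / a)
  mono := fun _ _ h => G.mono (ENNReal.div_le_div_right h _)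
  zero := by simp [G.zero]
  top := by rw [ENNReal.top_div_of_ne_top ha, G.top]
  lc := fun x h0 ht => by
    by_cases a0 : a = 0
    · subst a0
      refine ContinuousAt.continuousWithinAt (continuousAt_const (y := (1 : ℝ))|>.congr ?_)
      filter_upwards [isOpen_ne.mem_nhds h0] with y hy
      rw [ENNReal.div_zero hy, G.top]
    · refine (G.lc (x / a) (by simp [h0, ha]) (ENNReal.div_ne_top ht a0)).comp (f := fun x => x / a)
        (ENNReal.continuous_div_const a a0).continuousWithinAt fun y hy => ?_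
      exact ENNReal.div_lt_div_right a0 ha hy

noncomputable def mx (F G : DF) : DF where
  f x := max (F.f x) (G.f x)
  mono := F.mono.max G.mono
  zero := by simp [F.zero, G.zero]
  top := by simp [F.top, G.top]
  lc := fun x h0 ht => (F.lc x h0 ht).max (G.lc x h0 ht)

theorem result (τ : DF → DF → DF) (h : IsTri τ) (hu : Universal τ) (F G : DF) (x : ℝ≥0∞) :
    (τ F G).f x ≤ tauM F G x := by
  obtain ⟨hc, -, hm, hi⟩ := h
  have bd : ∀ u v, u + v = x → min (F.f u) (G.f v) ≤ tauM F G x := fun u v e =>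
    le_csSup ⟨1, by rintro _ ⟨u, v, -, rfl⟩; exact (min_le_left _ _).trans (F.le1 _)⟩ ⟨u, v, e, rfl⟩
  have E : ∀ H : DF, IsE0 (sc H 0 (by simp)) := fun H y hy => by
    show H.f (y / 0) = 1
    rw [ENNReal.div_zero hy, H.top]
  have eE : ∀ H : DF, LE H (sc H 0 (by simp)) := fun H y => by
    by_cases hy : y = 0
    · rw [hy, H.zero]; exact DF.ge0 _ _
    · rw [E H y hy]; exact H.le1 y
  have lG : ∀ F G, LE (τ F G) G := fun F G => by simpa [hi _ G (E F)] using hm _ _ G (eE F)
  have key : ∀ u v, u + v = x → x ≠ ⊤ → (τ F G).f x ≤ max (F.f u) (G.f v) := by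
    intro u v e xt
    have ut : u ≠ ⊤ := fun h => xt (by simp [← e, h])
    have vt : v ≠ ⊤ := fun h => xt (by simp [← e, h])
    by_cases u0 : u = 0
    · rw [u0, zero_add] at e; exact le_max_of_le_right (e ▸ lG F G x)
    by_cases v0 : v = 0
    · rw [v0, add_zero] at e; rw [hc]; exact le_max_of_le_left (e ▸ lG G F x)
    let H := mx (sc F u⁻¹ (by simpa)) (sc G v⁻¹ (by simpa))
    have Hf : ∀ y, H.f y = max (F.f (y * u)) (G.f (y * v)) := fun y => by
      show max (F.f (y / u⁻¹)) (G.f (y / v⁻¹)) = _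
      rw [div_eq_mul_inv, div_eq_mul_inv, inv_inv, inv_inv]
    have H1 : H.f 1 = max (F.f u) (G.f v) := by rw [Hf, one_mul, one_mul]
    by_cases h0 : IsE0 H
    · rw [← H1, h0 1 one_ne_zero]; exact DF.le1 _ _
    by_cases h1 : IsEtop H
    · have := h1 (x / v) (ENNReal.div_ne_top xt v0)
      rw [Hf, ENNReal.div_mul_cancel v0 vt] at this
      exact (lG F G x).trans (((le_max_right _ _).trans_eq this).trans
        (le_max_of_le_left (F.ge0 _)))
    lift u to ℝ≥0 using ut
    lift v to ℝ≥0 using vt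
    have := hu ℝ≥0 H h0 h1 (fun p q => sc H (edist p q) (edist_ne_top p q)) (fun _ _ _ => rfl)
      0 u (u + v) x
    have d1 : edist 0 u = u := by rw [edist_nndist, NNReal.nndist_zero_eq_val]
    have d2 : edist u (u + v) = v := by rw [edist_nndist, NNReal.nndist_eq, tsub_eq_zero_of_le le_self_add]; simp
    have d3 : edist 0 (u + v) = x := by rw [edist_nndist, NNReal.nndist_zero_eq_val, ← e]; simp
    have a : LE F (sc H (edist 0 u) (edist_ne_top _ _)) := fun y => by
      show _ ≤ H.f (y / _)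
      rw [d1, Hf, ENNReal.div_mul_cancel u0 (by simp)]; exact le_max_left _ _
    have b : LE G (sc H (edist u (u + v)) (edist_ne_top _ _)) := fun y => by
      show _ ≤ H.f (y / _)
      rw [d2, Hf, ENNReal.div_mul_cancel v0 (by simp)]; exact le_max_right _ _
    refine (hm _ _ G a x).trans ?_
    rw [hc]
    refine (hm _ _ _ b x).trans ?_
    rw [hc]
    refine this.trans_eq ?_
    show H.f (x / _) = _
    rw [d3, ENNReal.div_self (by simp [← e, u0]) xt, H1]
  by_cases xt : x = ⊤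
  · refine (DF.le1 _ _).trans (le_trans ?_ (bd ⊤ ⊤ (by simp [xt])))
    simp [F.top, G.top]
  have s0 : 0 ≤ tauM F G x := le_trans (le_min (F.ge0 _) (G.ge0 _)) (bd 0 x (by simp))
  have lim : ∀ (H : DF) y, y ≠ ⊤ → (∀ z < y, H.f z ≤ tauM F G x) → H.f y ≤ tauM F G x := by
    intro H y yt hz
    by_cases y0 : y = 0
    · rwa [y0, H.zero]
    have : (𝓝[<] y).NeBot := nhdsLT_neBot_of_exists_lt ⟨0, pos_iff_ne_zero.2 y0⟩
    exact le_of_tendsto (H.lc y y0 yt) (eventually_nhdsWithin_of_forall hz)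
  set u := sSup {u | u ≤ x ∧ F.f u ≤ G.f (x - u)} with hu'
  have ux : u ≤ x := sSup_le fun _ h => h.1
  refine (key u (x - u) (add_tsub_cancel_of_le ux) xt).trans (max_le ?_ ?_)
  · refine lim F u (ne_top_of_le_ne_top xt ux) fun z hz => ?_
    obtain ⟨y, ⟨h1, h2⟩, h3⟩ := lt_sSup_iff.1 hz
    exact (F.mono h3.le).trans ((min_eq_left h2).symm.trans_le (bd _ _ (add_tsub_cancel_of_le h1)))
  · refine lim G _ (ne_top_of_le_ne_top xt tsub_le_self) fun z hz => ?_
    have zx : z ≤ x := hz.le.trans tsub_le_self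
    have zt : z ≠ ⊤ := ne_top_of_le_ne_top xt zx
    have h1 : u < x - z := by
      rw [lt_tsub_iff_right] at hz ⊢; rwa [add_comm]
    have h2 : ¬F.f (x - z) ≤ G.f (x - (x - z)) := fun h =>
      h1.not_ge (le_sSup ⟨tsub_le_self, h⟩)
    rw [ENNReal.sub_sub_cancel xt zx] at h2
    exact (min_eq_right (not_le.1 h2).le).symm.trans_le (bd _ _ (tsub_add_cancel_of_le zx))

end Pool.Agent.Results.MP_6d1e65_an.Strongest
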